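import Mathlib

open PowerSeries Finset

namespace Pool.Agent.Results.MP_c5dce0_nt.Val

/-- The series `1 / (1 - x ^ d) = 1 + x ^ d + x ^ (2 d) + ⋯`. -/
noncomputable def geom (d : ℕ) : ℤ⟦X⟧ := PowerSeries.mk fun j => if d ∣ j then 1 else 0

/-- `S k m n`: the coefficient of `x ^ n` in `(1 - x) ^ (-m) ∏ i, (1 - x ^ k ^ i) ^ (-m (k - 1))`;
the factors with `i > n` are `1` modulo `x ^ (n + 1)` and are left out. -/
noncomputable def S (k m n : ℕ) : ℤ :=
  coeff n (geom 1 ^ m * ∏ i ∈ range (n + 1), geom (k ^ i) ^ (m * (k - 1)))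

lemma geom_mul (d : ℕ) (hd : d ≠ 0) : geom d * (1 - X ^ d) = 1 := by
  have : geom d = expand d hd (PowerSeries.mk 1) := by
    ext j; simp [geom, coeff_expand]
  rw [this, ← expand_X d hd, ← map_one (expand d hd), ← map_sub, ← map_mul,
    mk_one_mul_one_sub_eq_one]

lemma expand_geom (d : ℕ) : expand 4 four_ne_zero (geom d) = geom (4 * d) := by
  ext j
  rw [coeff_expand, geom, geom, coeff_mk, coeff_mk]
  by_cases h : 4 ∣ j
  · simp [h, Nat.dvd_div_iff_mul_dvd h]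
  · rw [if_neg h, if_neg fun h' => h (dvd_of_mul_right_dvd h')]

def w (i : ℕ) : ℤ := [0, 2, 1, 2, 0, 2, 3, 2].getD i 0

noncomputable def v : ℤ⟦X⟧ := ∑ i ∈ range 8, C (w i) * (X ^ i * geom 8)

lemma coeff_v (n : ℕ) : coeff n v = w (n % 8) := by
  rw [v, map_sum, sum_congr rfl (g := fun i => if n % 8 = i then w i else 0) fun i hi => ?_]
  · simp [Nat.mod_lt]
  · have := mem_range.1 hi
    rw [coeff_C_mul, coeff_X_pow_mul', geom, coeff_mk]
    split_ifs <;> first | omega | simp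

lemma rho (r : ℕ) :
    ∃ t, ((1 - X ^ 4) * geom 1 ^ 4) ^ 2 ^ (r + 2) = 1 + 2 ^ (r + 3) * (v + 4 * t) := by
  induction r with
  | zero =>
    refine ⟨geom 1 ^ 16 * geom 8 * (4 * X ^ 2 - 39 * X ^ 3 + 201 * X ^ 4 - 694 * X ^ 5 +
      1766 * X ^ 6 - 3513 * X ^ 7 + 5698 * X ^ 8 - 7772 * X ^ 9 + 9075 * X ^ 10 - 9098 * X ^ 11 +
      7800 * X ^ 12 - 5800 * X ^ 13 + 4043 * X ^ 14 - 3046 * X ^ 15 + 2558 * X ^ 16 -
      2052 * X ^ 17 + 1357 * X ^ 18 - 687 * X ^ 19 + 255 * X ^ 20 - 66 * X ^ 21 + 11 * X ^ 22 -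
      X ^ 23), ?_⟩
    have h1 := congrArg (· ^ 16) (geom_mul 1 one_ne_zero)
    have h2 := geom_mul 8 (by norm_num)
    have h3 : v = (2 * X + X ^ 2 + 2 * X ^ 3 + 2 * X ^ 5 + 3 * X ^ 6 + 2 * X ^ 7) * geom 8 := by
      simp [v, w, sum_range_succ]; ring
    simp only [mul_pow, one_pow, ← pow_mul] at h1 ⊢
    norm_num only at h1 ⊢
    generalize geom 1 ^ 16 = g at *
    linear_combination (geom 8 * (1 - X ^ 8) + 8 * v) * h1 + (1 - (1 - X ^ 4) ^ 4 * g) * h2 -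
      8 * g * (1 - X) ^ 16 * h3
  | succ r ih =>
    obtain ⟨t, ht⟩ := ih
    exact ⟨t + 2 ^ r * (v + 4 * t) ^ 2, by rw [pow_succ 2 (r + 2), pow_mul, ht]; ring⟩

def Q (n : ℕ) (a : ℤ) : Prop := if padicValNat 2 n % 2 = 0 then a % 4 = 2 else a % 2 = 1

lemma main (r N : ℕ) : ∃ W : ℤ⟦X⟧, (geom 1 ^ 2 ^ (r + 2) *
    ∏ i ∈ range N, geom (4 ^ i) ^ (2 ^ (r + 2) * 3)) * (1 - X ^ 4 ^ N) ^ 2 ^ (r + 2) =
    1 + 2 ^ (r + 3) * W ∧ ∀ n, n ≠ 0 → n < 4 ^ N → Q n (coeff n W) := by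
  induction N with
  | zero =>
    exact ⟨0, by simp [← mul_pow, show geom 1 * (1 - X) = 1 by simpa using geom_mul 1],
      fun n h1 h2 => by omega⟩
  | succ N ih =>
    obtain ⟨W, h1, h2⟩ := ih
    obtain ⟨t, ht⟩ := rho r
    refine ⟨v + expand 4 four_ne_zero W + C 4 * (t + 2 ^ (r + 1) * (v + 4 * t) *
      expand 4 four_ne_zero W), ?_, fun n h3 h4 => ?_⟩
    · have h3 := congrArg (expand 4 four_ne_zero) h1
      have h4 := congrArg (· ^ 2 ^ (r + 2)) (geom_mul 4 four_ne_zero)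
      simp only [map_mul, map_pow, map_prod, map_sub, map_add, map_one, map_ofNat, expand_geom,
        expand_X, ← pow_mul, ← pow_succ', mul_one, mul_pow, one_pow] at h3 h4 ht ⊢
      rw [prod_range_succ', pow_zero]
      generalize ∏ i ∈ range N, geom (4 ^ (i + 1)) ^ (2 ^ (r + 2) * 3) = P at *
      generalize (1 - X ^ 4 ^ (N + 1) : ℤ⟦X⟧) ^ 2 ^ (r + 2) = Y at *
      linear_combination geom 4 ^ 2 ^ (r + 2) * P * Y * ht - geom 1 ^ (4 * 2 ^ (r + 2)) * P * Y * h4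
        + (1 + 2 ^ (r + 3) * (v + 4 * t)) * h3
    · rw [map_add, map_add, coeff_C_mul, coeff_v, coeff_expand]
      by_cases h : 4 ∣ n
      · obtain ⟨q, rfl⟩ := h
        have := h2 q (by omega) (by omega)
        have e : w (4 * q % 8) = 0 := by
          rcases (by omega : 4 * q % 8 = 0 ∨ 4 * q % 8 = 4) with h | h <;> rw [h] <;> rfl
        have e2 : padicValNat 2 (4 * q) = 2 + padicValNat 2 q := by
          rw [padicValNat.mul four_ne_zero (by omega), show 4 = 2 ^ 2 from rfl,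
            padicValNat.prime_pow]
        rw [if_pos (dvd_mul_right _ _), e, Nat.mul_div_cancel_left _ four_pos]
        unfold Q at *
        rw [e2]
        split_ifs at * <;> omega
      · rw [if_neg h, Q]
        by_cases h' : 2 ∣ n
        · obtain ⟨q, rfl⟩ := h'
          rw [padicValNat.mul two_ne_zero (by omega), padicValNat_self,
            padicValNat.eq_zero_of_not_dvd (by omega), if_neg (by omega)]
          rcases (by omega : 2 * q % 8 = 2 ∨ 2 * q % 8 = 6) with h | h <;> simp [h, w] <;> omega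
        · rw [padicValNat.eq_zero_of_not_dvd h', if_pos rfl]
          rcases (by omega : n % 8 = 1 ∨ n % 8 = 3 ∨ n % 8 = 5 ∨ n % 8 = 7) with h | h | h | h <;>
            simp [h, w]

theorem result (s n : ℕ) (hs : 2 ≤ s) (hn : 1 ≤ n) :
    emultiplicity 2 (S 4 (2 ^ s) n) = (s + 1 + padicValNat 2 (2 * n) % 2 : ℕ) := by
  obtain ⟨r, rfl⟩ := Nat.exists_eq_add_of_le' hs
  have h0 : n < 4 ^ (n + 1) := n.lt_succ_self.trans (Nat.lt_pow_self (by norm_num))
  obtain ⟨W, h1, h2⟩ := main r (n + 1)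
  have h3 := h2 n (by omega) h0
  have h4 : X ^ 4 ^ (n + 1) ∣ (1 - X ^ 4 ^ (n + 1) : ℤ⟦X⟧) ^ 2 ^ (r + 2) - 1 :=
    Dvd.dvd.trans (by simp) (sub_one_dvd_pow_sub_one _ _)
  have h5 := X_pow_dvd_iff.1 (h4.mul_left (geom 1 ^ 2 ^ (r + 2) *
    ∏ i ∈ range (n + 1), geom (4 ^ i) ^ (2 ^ (r + 2) * 3))) n h0
  rw [mul_sub, map_sub, sub_eq_zero, mul_one, h1, map_add, coeff_one, if_neg (by omega), zero_add,
    show (2 : ℤ⟦X⟧) = C 2 from rfl, ← map_pow, coeff_C_mul] at h5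
  rw [S, ← h5, emultiplicity_eq_coe, padicValNat.mul two_ne_zero (by omega), padicValNat_self,
    add_assoc (r + 2 + 1), pow_add _ (r + 2 + 1), pow_add _ (r + 2 + 1),
    mul_dvd_mul_iff_left (by positivity), mul_dvd_mul_iff_left (by positivity)]
  unfold Q at h3
  split_ifs at h3 with h
  · rw [show (1 + padicValNat 2 n) % 2 = 1 by omega]; omega
  · rw [show (1 + padicValNat 2 n) % 2 = 0 by omega]; omega

end Pool.Agent.Results.MP_c5dce0_nt.Val
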